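import Mathlib
import Pool.Agent.Q268.RL.Split
import Pool.Agent.Q268.BV.Half

/-!
# Reverse Littlewood–Offord: for which radii are the parity-restricted constants positive?

`f^j_{d,r}` (`j = 0` for `n ≡ d`, `j = 1` for `n ≢ d` modulo `2`) is positive as soon as all large
families of the parity class have one signed sum of norm at most some `r' < r`, and it is zero if this
fails for `r` itself.  For `j = 1` the threshold lies in `[√(d - 1), √(d - 1/2)]`, in every dimension.
-/

set_option autoImplicit false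

open Filter Topology

namespace Pool.Agent.Results.MP_3b7d13_co.ParityThreshold

open Pool.Agent.Q268.RL Pool.Agent.Q268.BV

/-- The probability, over independent uniform signs, that the signed sum of the vectors
`V 0, …, V (n-1)` of Euclidean `d`-space has norm at most `r`. -/
noncomputable def prob (d n : ℕ) (r : ℝ) (V : Fin n → EuclideanSpace ℝ (Fin d)) : ℝ :=
  (Nat.card {ε : Fin n → Bool // ‖∑ i, (if ε i then (1:ℝ) else -1) • V i‖ ≤ r} : ℝ) / 2 ^ n

/-- `F_{d,r}(n)`: the infimum of `prob` over all sequences of `n` unit vectors. -/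
noncomputable def F (d : ℕ) (r : ℝ) (n : ℕ) : ℝ :=
  ⨅ V : Fin n → Metric.sphere (0 : EuclideanSpace ℝ (Fin d)) 1,
    prob d n r (fun i => (V i : EuclideanSpace ℝ (Fin d)))

/-- `f^j_{d,r}`: the lower limit of `n ^ (d/2) F_{d,r}(n)` over the `n ≡ d + j` modulo `2`. -/
noncomputable def f (j d : ℕ) (r : ℝ) : EReal :=
  liminf (fun n : ℕ => (((n:ℝ) ^ ((d:ℝ)/2) * F d r n : ℝ) : EReal))
    (atTop ⊓ 𝓟 {n : ℕ | n % 2 = (d + j) % 2})

/-- All sequences of `n` unit vectors, `n` large and `n ≡ d + j` modulo `2`, have a signed sum of norm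
at most `r`. -/
def Balanced (j d : ℕ) (r : ℝ) : Prop :=
  ∀ᶠ n : ℕ in atTop, n % 2 = (d + j) % 2 → ∀ V : Fin n → EuclideanSpace ℝ (Fin d),
    (∀ i, ‖V i‖ = 1) → ∃ ε : Fin n → Bool, ‖∑ i, (if ε i then (1:ℝ) else -1) • V i‖ ≤ r

lemma sm_eq {d n : ℕ} (V : Fin n → EuclideanSpace ℝ (Fin d)) (ε : Fin n → Bool) :
    sm V ε = ∑ i, (if ε i then (1:ℝ) else -1) • V i := rfl

lemma prob_eq (d n : ℕ) (r : ℝ) (V : Fin n → EuclideanSpace ℝ (Fin d)) : prob d n r V = pr V r := by
  unfold prob pr
  rw [Nat.card_eq_fintype_card, Fintype.card_subtype, Fintype.card_fin]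
  rfl

lemma prob_nonneg (d n : ℕ) (r : ℝ) (V : Fin n → EuclideanSpace ℝ (Fin d)) : 0 ≤ prob d n r V := by
  unfold prob; positivity

lemma rpow_half (n d : ℕ) : (n:ℝ) ^ ((d:ℝ)/2) = √(n:ℝ) ^ d := by
  rw [Real.sqrt_eq_rpow, ← Real.rpow_natCast, ← Real.rpow_mul (by positivity)]
  congr 1
  ring

lemma nonempty_sphere {d : ℕ} (hd : 0 < d) :
    Nonempty (Metric.sphere (0 : EuclideanSpace ℝ (Fin d)) 1) := by
  have : NeZero d := ⟨hd.ne'⟩
  exact ⟨⟨EuclideanSpace.single 0 1, by simp⟩⟩

/-- the first part: one short signed sum gives many -/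
lemma pos_of_balanced {j d : ℕ} (hd : 0 < d) {r' r : ℝ} (hr : r' < r) (h : Balanced j d r') :
    0 < f j d r := by
  obtain ⟨n₀, hn₀⟩ := eventually_atTop.mp h
  obtain ⟨c, hc, n₁, hn₁⟩ := many_of_exists (EuclideanSpace ℝ (Fin d)) hr n₀ (d + j)
    (fun m hm hpar v hv => hn₀ m hm hpar v hv)
  have := nonempty_sphere hd
  have key : ((c : ℝ) : EReal) ≤ f j d r := by
    unfold f
    refine Filter.le_liminf_of_le (by isBoundedDefault) ?_
    rw [Filter.eventually_inf_principal]
    filter_upwards [eventually_ge_atTop (max n₁ 1)] with n hn hpar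
    have hn1 : n₁ ≤ n := (le_max_left _ _).trans hn
    have hn0 : (0:ℝ) < √(n:ℝ) ^ d := by
      have : (0:ℝ) < n := by exact_mod_cast (le_max_right n₁ 1).trans hn
      positivity
    have h2 : c ≤ (n:ℝ) ^ ((d:ℝ)/2) * F d r n := by
      rw [rpow_half, ← div_le_iff₀' hn0]
      refine le_ciInf fun V => ?_
      rw [prob_eq, div_le_iff₀' hn0]
      have h3 := hn₁ n hn1 hpar (fun i => (V i : EuclideanSpace ℝ (Fin d))) (fun i => by simp)
      rwa [finrank_euclideanSpace_fin] at h3
    exact_mod_cast h2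
  exact lt_of_lt_of_le (by exact_mod_cast hc) key

/-- the second part -/
lemma zero_of_not_balanced {j d : ℕ} {r : ℝ} (h : ¬ Balanced j d r) : f j d r = 0 := by
  apply le_antisymm
  · unfold f
    refine Filter.liminf_le_of_frequently_le' ?_
    rw [Filter.frequently_inf_principal]
    unfold Balanced at h
    rw [Filter.not_eventually] at h
    refine h.mono fun n hn => ?_
    push Not at hn
    obtain ⟨hpar, V, hV, hno⟩ := hn
    refine ⟨hpar, ?_⟩
    have h0 : F d r n ≤ 0 := by
      unfold F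
      refine (ciInf_le ⟨0, ?_⟩ (fun i => (⟨V i, by simpa using hV i⟩ :
        Metric.sphere (0 : EuclideanSpace ℝ (Fin d)) 1))).trans ?_
      · rintro _ ⟨W, rfl⟩
        exact prob_nonneg _ _ _ _
      · unfold prob
        have : IsEmpty {ε : Fin n → Bool // ‖∑ i, (if ε i then (1:ℝ) else -1) • V i‖ ≤ r} :=
          ⟨fun ε => absurd ε.2 (not_le.mpr (hno ε.1))⟩
        rw [Nat.card_of_isEmpty]
        simp
    have h1 : (n:ℝ) ^ ((d:ℝ)/2) * F d r n ≤ 0 :=
      mul_nonpos_of_nonneg_of_nonpos (by positivity) h0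
    exact_mod_cast h1
  · unfold f
    refine Filter.le_liminf_of_le (by isBoundedDefault) (Filter.Eventually.of_forall fun n => ?_)
    have h1 : 0 ≤ (n:ℝ) ^ ((d:ℝ)/2) * F d r n :=
      mul_nonneg (by positivity) (Real.iInf_nonneg fun V => prob_nonneg _ _ _ _)
    exact_mod_cast h1

lemma balanced_half (d : ℕ) : Balanced 1 d √((d:ℝ) - 1/2) := by
  refine Filter.Eventually.of_forall fun n hpar v hv => ?_
  have h := half_gain v hv (by rw [Fintype.card_fin, finrank_euclideanSpace_fin]; omega)
  rw [finrank_euclideanSpace_fin] at h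
  unfold Low at h
  push Not at h
  obtain ⟨η, hη, hb⟩ := h
  refine ⟨fun i => decide (η i = 1), ?_⟩
  have h2 : ∑ i, (if decide (η i = 1) = true then (1:ℝ) else -1) • v i = ∑ i, η i • v i := by
    refine Finset.sum_congr rfl fun i _ => ?_
    rcases hη i with h3 | h3
    · simp [h3]
    · rw [h3]
      norm_num
  rw [h2]
  exact Real.le_sqrt_of_sq_le hb

lemma odd_sum {n : ℕ} (s : Finset (Fin n)) (ε : Fin n → Bool) (hs : s.card % 2 = 1) :
    1 ≤ (∑ i ∈ s, (if ε i then (1:ℝ) else -1)) ^ 2 := by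
  have h1 : (∑ i ∈ s, (if ε i then (1:ℝ) else -1))
      = ((∑ i ∈ s, (if ε i then (1:ℤ) else -1) : ℤ) : ℝ) := by
    push_cast
    rfl
  have h2 : (∑ i ∈ s, (if ε i then (1:ℤ) else -1)) % 2 = 1 := by
    have h3 : ∀ s : Finset (Fin n), (∑ i ∈ s, (if ε i then (1:ℤ) else -1)) % 2 = (s.card : ℤ) % 2 := by
      intro s
      induction s using Finset.induction_on with
      | empty => simp
      | insert a s ha ih =>
        rw [Finset.sum_insert ha, Finset.card_insert_of_notMem ha]
        push_cast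
        split_ifs <;> omega
    rw [h3]
    omega
  rw [h1]
  have h3 : (∑ i ∈ s, (if ε i then (1:ℤ) else -1)) ≠ 0 := by
    intro h
    rw [h] at h2
    norm_num at h2
  have h4 : (1:ℤ) ≤ (∑ i ∈ s, (if ε i then (1:ℤ) else -1)) ^ 2 := by
    have := sq_nonneg (∑ i ∈ s, (if ε i then (1:ℤ) else -1))
    have h5 : (∑ i ∈ s, (if ε i then (1:ℤ) else -1)) ^ 2 ≠ 0 := pow_ne_zero 2 h3
    omega
  exact_mod_cast h4

lemma card_fin_filter (n : ℕ) (p : ℕ → Prop) [DecidablePred p] :
    (Finset.univ.filter (fun i : Fin n => p i.val)).card = ((Finset.range n).filter p).card := by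
  refine Finset.card_bij (fun i _ => i.val) ?_ (fun a _ b _ h => Fin.ext h) ?_
  · intro i hi
    simp only [Finset.mem_filter, Finset.mem_univ, true_and, Finset.mem_range] at hi ⊢
    exact ⟨i.2, hi⟩
  · intro i hi
    simp only [Finset.mem_filter, Finset.mem_range] at hi
    exact ⟨⟨i, hi.1⟩, by simpa using hi.2, rfl⟩

/-- `d - 1` orthonormal vectors, the first one repeated -/
lemma not_balanced_low {d : ℕ} (hd : 2 ≤ d) {r : ℝ} (hr : r < √((d:ℝ) - 1)) : ¬ Balanced 1 d r := by
  intro h
  obtain ⟨n₀, hn₀⟩ := eventually_atTop.mp h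
  set n := d - 1 + 2 * n₀ with hn
  have hd0 : 0 < d := by omega
  set g : Fin n → Fin d := fun i => if h : i.val < d - 1 then ⟨i.val, by omega⟩ else ⟨0, hd0⟩ with hg
  obtain ⟨ε, hε⟩ := hn₀ n (by omega) (by omega) (fun i => EuclideanSpace.single (g i) (1:ℝ))
    (fun i => by simp)
  refine absurd hε (not_le.mpr (lt_of_lt_of_le hr ?_))
  rw [EuclideanSpace.norm_eq]
  apply Real.sqrt_le_sqrt
  -- the coordinates
  have hco : ∀ k : Fin d, (∑ i, (if ε i then (1:ℝ) else -1) • EuclideanSpace.single (g i) (1:ℝ)) k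
      = ∑ i ∈ Finset.univ.filter (fun i => g i = k), (if ε i then (1:ℝ) else -1) := by
    intro k
    rw [WithLp.ofLp_sum, Finset.sum_apply, Finset.sum_filter]
    refine Finset.sum_congr rfl fun i _ => ?_
    simp only [PiLp.smul_apply, PiLp.single_apply, smul_eq_mul]
    by_cases hk : g i = k
    · simp [hk]
    · have hk' : ¬ k = g i := fun h => hk h.symm
      simp [hk, hk']
  have hodd : ∀ k : Fin d, k.val < d - 1 →
      (Finset.univ.filter (fun i : Fin n => g i = k)).card % 2 = 1 := by
    intro k hk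
    by_cases hk0 : k.val = 0
    · have h1 : (Finset.univ.filter (fun i : Fin n => g i = k))
          = Finset.univ \ (Finset.univ.filter (fun i : Fin n => 1 ≤ i.val ∧ i.val < d - 1)) := by
        ext i
        simp only [Finset.mem_filter, Finset.mem_univ, true_and, Finset.mem_sdiff, hg, Fin.ext_iff]
        split_ifs with h2
        · dsimp only
          constructor <;> intro h3 <;> omega
        · constructor
          · intro _ h3
            omega
          · intro _
            exact hk0.symm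
      have h2 : (Finset.univ.filter (fun i : Fin n => 1 ≤ i.val ∧ i.val < d - 1)).card = d - 2 := by
        have h3 : (Finset.univ.filter (fun i : Fin n => 1 ≤ i.val ∧ i.val < d - 1)).card
            = ((Finset.range n).filter (fun i => 1 ≤ i ∧ i < d - 1)).card :=
          card_fin_filter n (fun i => 1 ≤ i ∧ i < d - 1)
        rw [h3]
        have h4 : (Finset.range n).filter (fun i => 1 ≤ i ∧ i < d - 1) = Finset.Ico 1 (d - 1) := by
          ext i
          simp only [Finset.mem_filter, Finset.mem_range, Finset.mem_Ico]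
          omega
        rw [h4, Nat.card_Ico]
        omega
      rw [h1, Finset.card_sdiff_of_subset (Finset.subset_univ _), h2, Finset.card_univ,
        Fintype.card_fin]
      omega
    · have h1 : (Finset.univ.filter (fun i : Fin n => g i = k)) = {⟨k.val, by omega⟩} := by
        ext i
        simp only [Finset.mem_filter, Finset.mem_univ, true_and, Finset.mem_singleton, hg, Fin.ext_iff]
        split_ifs with h2
        · simp
        · simp only
          omega
      rw [h1]
      simp
  have h1 : ((d:ℝ) - 1) ≤ ∑ k ∈ Finset.univ.filter (fun k : Fin d => k.val < d - 1), (1:ℝ) := by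
    rw [Finset.sum_const, nsmul_eq_mul, mul_one]
    have h2 : (Finset.univ.filter (fun k : Fin d => k.val < d - 1)).card = d - 1 := by
      have h3 : (Finset.univ.filter (fun k : Fin d => k.val < d - 1)).card
          = ((Finset.range d).filter (fun i => i < d - 1)).card :=
        card_fin_filter d (fun i => i < d - 1)
      rw [h3]
      have h4 : (Finset.range d).filter (fun i => i < d - 1) = Finset.range (d - 1) := by
        ext i
        simp only [Finset.mem_filter, Finset.mem_range]
        omega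
      rw [h4, Finset.card_range]
    rw [h2, Nat.cast_sub (by omega)]
    push_cast
    exact le_rfl
  refine h1.trans ((Finset.sum_le_sum fun k hk => ?_).trans
    (Finset.sum_le_univ_sum_of_nonneg fun k => by positivity))
  rw [hco, Real.norm_eq_abs, sq_abs]
  exact odd_sum _ ε (hodd k (Finset.mem_filter.mp hk).2)

theorem result (d : ℕ) (hd : 2 ≤ d) :
    -- one short signed sum gives many, in both parity classes
    (∀ (j : ℕ) (r' r : ℝ), r' < r → Balanced j d r' → 0 < f j d r) ∧
    (∀ (j : ℕ) (r : ℝ), ¬ Balanced j d r → f j d r = 0) ∧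
    -- the threshold for `n ≢ d`
    ∃ ρ : ℝ, √((d:ℝ) - 1) ≤ ρ ∧ ρ ≤ √((d:ℝ) - 1/2) ∧
      (∀ r : ℝ, r < ρ → f 1 d r = 0) ∧ ∀ r : ℝ, ρ < r → 0 < f 1 d r := by
  have hd0 : 0 < d := by omega
  refine ⟨fun j r' r hr h => pos_of_balanced hd0 hr h, fun j r h => zero_of_not_balanced h, ?_⟩
  have hmem : √((d:ℝ) - 1/2) ∈ {r : ℝ | Balanced 1 d r} := balanced_half d
  have hbdd : √((d:ℝ) - 1) ∈ lowerBounds {r : ℝ | Balanced 1 d r} := by
    intro r hr
    by_contra hcon
    push Not at hcon
    exact not_balanced_low hd hcon hr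
  refine ⟨sInf {r : ℝ | Balanced 1 d r}, le_csInf ⟨_, hmem⟩ hbdd, csInf_le ⟨_, hbdd⟩ hmem, ?_, ?_⟩
  · intro r hr
    refine zero_of_not_balanced fun h => ?_
    exact absurd (csInf_le ⟨_, hbdd⟩ h) (not_le.mpr hr)
  · intro r hr
    obtain ⟨r', hr', hlt⟩ := exists_lt_of_csInf_lt ⟨_, hmem⟩ hr
    exact pos_of_balanced hd0 hlt hr'

end Pool.Agent.Results.MP_3b7d13_co.ParityThreshold
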